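import Pool.Agent.Lib.MP_234613_al.Reg78

open Pool.Agent.Lib.MP_234613_al

namespace Pool.Agent.Results.MP_234613_al.GRingNotSplit

universe v

/-- For every prime `p` there is a one-dimensional non-regular Noetherian local domain of
characteristic `p` that is a G-ring, is `F`-pure and has a nonzero `p⁻¹`-linear map, but is not
Frobenius split. -/
theorem result (p : ℕ) [Fact p.Prime] :
    ∃ (R : Type) (_ : CommRing R) (_ : IsDomain R) (_ : IsLocalRing R) (_ : IsNoetherianRing R)
      (_ : CharP R p), ringKrullDim R = 1 ∧ IsGRing R ∧ ¬IsRegularLocalRing R ∧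
      IsFPure.{v} R p ∧ (∃ φ : R →+ R, IsPInvLinear p φ ∧ φ ≠ 0) ∧
      ¬∃ φ : R →+ R, IsPInvLinear p φ ∧ φ 1 = 1 := by
  obtain ⟨D⟩ := nonempty_data p
  obtain ⟨φ, hφ, h0⟩ := D.exists_nonzero
  exact ⟨D.R, inferInstance, inferInstance, inferInstance, inferInstance, inferInstance,
    D.krullDim, F78.isGRing p D.krullDim φ hφ h0, D.not_regular, D.isFPure, ⟨φ, hφ, h0⟩,
    D.not_split⟩

end Pool.Agent.Results.MP_234613_al.GRingNotSplit
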